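import Pool.Agent.Lib.MP_aa7e4d_lc.Interfaces

/-!
# EXT: adding finitely many new elements over a finite subset of a generic frame
-/

open FirstOrder FirstOrder.Language

namespace Pool.Agent.SFC.H30

open Pool.Agent.SFC

theorem ext : ExtStatement := by
  classical
  intro N F hF X _ ρ κ τ S Q U hτl hτr hQs hQi
  have main : ∀ n : ℕ, ∀ Y : Finset X, Y.card = n →
      (∀ x ∈ Y, ∀ i y, τ x i = some (Sum.inl y) → y ∈ Y) →
      ∃ e : X → N, (∀ x ∈ Y, ∀ y ∈ Y, e x = e y → x = y) ∧ (∀ x ∈ Y, e x ∉ S) ∧
        (∀ x ∈ Y, F.kind (e x) = κ x) ∧
        (∀ x ∈ Y, ∀ i, τ x i = none → F.f i (e x) = e x) ∧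
        (∀ x ∈ Y, ∀ i y, τ x i = some (Sum.inl y) → F.f i (e x) = e y) ∧
        (∀ x ∈ Y, ∀ i s, τ x i = some (Sum.inr s) → F.f i (e x) = s) ∧
        (∀ x ∈ Y, ∀ y ∈ Y, (F.R (e x) (e y) ↔ Q x y)) ∧
        (∀ x ∈ Y, ∀ s ∈ S, (F.R (e x) s ↔ U x s)) := by
    intro n
    induction n with
    | zero =>
      intro Y hY _
      rw [Finset.card_eq_zero] at hY
      subst hY
      by_cases hX : Nonempty X
      · obtain ⟨v, _⟩ := hF S .A (fun _ => none) ∅ (by simp)
        exact ⟨fun _ => v, by simp⟩
      · rw [not_nonempty_iff] at hX
        exact ⟨fun x => hX.elim x, by simp⟩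
    | succ n ih =>
      intro Y hY hcl
      have hne : Y.Nonempty := by
        rw [← Finset.card_pos]
        omega
      obtain ⟨x, hxY, hx⟩ := Y.exists_max_image ρ hne
      have hY' : (Y.erase x).card = n := by
        rw [Finset.card_erase_of_mem hxY]
        omega
      have hcl' : ∀ x' ∈ Y.erase x, ∀ i y, τ x' i = some (Sum.inl y) → y ∈ Y.erase x := by
        intro x' hx' i y hy
        have h1 := Finset.mem_of_mem_erase hx'
        have h2 := hx x' h1
        have h3 := (hτl x' i y hy).1
        refine Finset.mem_erase.2 ⟨?_, hcl x' h1 i y hy⟩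
        rintro rfl
        omega
      obtain ⟨e, h1, h2, h3, h4, h5, h6, h7, h8⟩ := ih (Y.erase x) hY' hcl'
      have hpar : ∀ i y, τ x i = some (Sum.inl y) → y ∈ Y.erase x := by
        intro i y hy
        have h3 := (hτl x i y hy).1
        refine Finset.mem_erase.2 ⟨?_, hcl x hxY i y hy⟩
        rintro rfl
        omega
      let g : Fn → Option N := fun i =>
        match τ x i with
        | none => none
        | some (Sum.inl y) => some (e y)
        | some (Sum.inr s) => some s
      have g0 : ∀ i, τ x i = none → g i = none := by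
        intro i hi
        show (match τ x i with
          | none => none
          | some (Sum.inl y) => some (e y)
          | some (Sum.inr s) => some s) = none
        rw [hi]
      have g1 : ∀ i y, τ x i = some (Sum.inl y) → g i = some (e y) := by
        intro i y hi
        show (match τ x i with
          | none => none
          | some (Sum.inl y) => some (e y)
          | some (Sum.inr s) => some s) = some (e y)
        rw [hi]
      have g2 : ∀ i s, τ x i = some (Sum.inr s) → g i = some s := by
        intro i s hi
        show (match τ x i with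
          | none => none
          | some (Sum.inl y) => some (e y)
          | some (Sum.inr s) => some s) = some s
        rw [hi]
      obtain ⟨v, hv1, hv2, hv3, hv4, hv5⟩ := hF (S ∪ (Y.erase x).image e) (κ x) g
        {m | (∃ y ∈ Y.erase x, m = e y ∧ Q x y) ∨ (m ∈ S ∧ U x m)} (by
          intro i y hy
          rcases hτ : τ x i with _ | (z | s)
          · rw [g0 i hτ] at hy
            exact absurd hy (by simp)
          · rw [g1 i z hτ, Option.some.injEq] at hy
            subst hy
            refine ⟨Finset.mem_union_right _ (Finset.mem_image_of_mem _ (hpar i z hτ)), ?_⟩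
            rw [h3 z (hpar i z hτ)]
            exact (hτl x i z hτ).2
          · rw [g2 i s hτ, Option.some.injEq] at hy
            subst hy
            exact ⟨Finset.mem_union_left _ (hτr x i s hτ).1, (hτr x i s hτ).2⟩)
      have hvS : v ∉ S := fun h => hv1 (Finset.mem_union_left _ h)
      have hve : ∀ y ∈ Y.erase x, v ≠ e y := fun y hy h =>
        hv1 (Finset.mem_union_right _ (h ▸ Finset.mem_image_of_mem _ hy))
      have hvR : ∀ y ∈ Y.erase x, (F.R v (e y) ↔ Q x y) := by
        intro y hy
        rw [hv5 (e y) (Finset.mem_union_right _ (Finset.mem_image_of_mem _ hy))]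
        constructor
        · rintro (⟨z, hz, hez, hq⟩ | ⟨hs, _⟩)
          · rw [h1 y hy z hz hez]
            exact hq
          · exact absurd hs (h2 y hy)
        · intro hq
          exact Or.inl ⟨y, hy, rfl, hq⟩
      have hvU : ∀ s ∈ S, (F.R v s ↔ U x s) := by
        intro s hs
        rw [hv5 s (Finset.mem_union_left _ hs)]
        constructor
        · rintro (⟨z, hz, hez, _⟩ | ⟨_, hu⟩)
          · exact absurd (hez ▸ hs) (h2 z hz)
          · exact hu
        · intro hu
          exact Or.inr ⟨hs, hu⟩
      let e' : X → N := Function.update e x v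
      have ex : e' x = v := Function.update_self _ _ _
      have ey : ∀ y ∈ Y.erase x, e' y = e y := fun y hy =>
        Function.update_of_ne (Finset.ne_of_mem_erase hy) _ _
      have cases : ∀ y ∈ Y, y = x ∨ y ∈ Y.erase x := by
        intro y hy
        by_cases h : y = x
        · exact Or.inl h
        · exact Or.inr (Finset.mem_erase.2 ⟨h, hy⟩)
      refine ⟨e', ?_, ?_, ?_, ?_, ?_, ?_, ?_, ?_⟩
      · intro y hy z hz hyz
        rcases cases y hy with rfl | hy' <;> rcases cases z hz with rfl | hz'
        · rfl
        · rw [ex, ey z hz'] at hyz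
          exact absurd hyz (hve z hz')
        · rw [ex, ey y hy'] at hyz
          exact absurd hyz.symm (hve y hy')
        · rw [ey y hy', ey z hz'] at hyz
          exact h1 y hy' z hz' hyz
      · intro y hy
        rcases cases y hy with rfl | hy'
        · rw [ex]; exact hvS
        · rw [ey y hy']; exact h2 y hy'
      · intro y hy
        rcases cases y hy with rfl | hy'
        · rw [ex]; exact hv2
        · rw [ey y hy']; exact h3 y hy'
      · intro y hy i hi
        rcases cases y hy with rfl | hy'
        · rw [ex]; exact hv3 i (g0 i hi)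
        · rw [ey y hy']; exact h4 y hy' i hi
      · intro y hy i z hz
        rcases cases y hy with rfl | hy'
        · rw [ex, ey z (hpar i z hz)]; exact hv4 i _ (g1 i z hz)
        · rw [ey y hy', ey z (hcl' y hy' i z hz)]; exact h5 y hy' i z hz
      · intro y hy i s hs
        rcases cases y hy with rfl | hy'
        · rw [ex]; exact hv4 i _ (g2 i s hs)
        · rw [ey y hy']; exact h6 y hy' i s hs
      · intro y hy z hz
        rcases cases y hy with rfl | hy' <;> rcases cases z hz with rfl | hz'
        · exact ⟨fun h => absurd h (F.R_irrefl _), fun h => absurd h (hQi _)⟩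
        · rw [ex, ey z hz']
          exact hvR z hz'
        · rw [ex, ey y hy']
          constructor
          · intro h
            exact hQs _ _ ((hvR y hy').1 (F.R_symm _ _ h))
          · intro h
            exact F.R_symm _ _ ((hvR y hy').2 (hQs _ _ h))
        · rw [ey y hy', ey z hz']
          exact h7 y hy' z hz'
      · intro y hy s hs
        rcases cases y hy with rfl | hy'
        · rw [ex]; exact hvU s hs
        · rw [ey y hy']; exact h8 y hy' s hs
  have : Fintype X := Fintype.ofFinite X
  obtain ⟨e, h1, h2, h3, h4, h5, h6, h7, h8⟩ := main _ Finset.univ rfl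
    (fun _ _ _ _ _ => Finset.mem_univ _)
  exact ⟨e, fun x y h => h1 x (Finset.mem_univ _) y (Finset.mem_univ _) h,
    fun x => h2 x (Finset.mem_univ _), fun x => h3 x (Finset.mem_univ _),
    fun x => h4 x (Finset.mem_univ _), fun x => h5 x (Finset.mem_univ _),
    fun x => h6 x (Finset.mem_univ _), fun x y => h7 x (Finset.mem_univ _) y (Finset.mem_univ _),
    fun x => h8 x (Finset.mem_univ _)⟩

end Pool.Agent.SFC.H30
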